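import Pool.Agent.P.MP_4f9fa7_an.H.Radon

/-! From the Radon property and the value of the Schaffer constant to the parallelogram law. -/

set_option autoImplicit false

open Filter Topology

namespace Pool.Agent.P.MP_4f9fa7_an.H

variable {X : Type} [NormedAddCommGroup X] [NormedSpace ℝ X]

lemma diag {S : ℝ} (hS : √2 ≤ S) (h2 : ∀ x y : X, ‖x‖ = 1 → ‖y‖ = 1 → S ≤ max ‖x + y‖ ‖x - y‖)
    {x y : X} (hx : ‖x‖ = 1) (hy : ‖y‖ = 1) (hA : S ≤ ‖x + y‖) (hB : ‖x + y‖ ≤ ‖x - y‖) :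
    ‖x - y‖ ≤ √2 := by
  have r1 : 1 < √2 := by rw [Real.lt_sqrt zero_le_one]; norm_num
  have r2 := Real.mul_self_sqrt (show (0 : ℝ) ≤ 2 by norm_num)
  have A0 : 0 < ‖x + y‖ := by linarith
  have B0 : 0 < ‖x - y‖ := by linarith
  have h := h2 _ _ (norm_smul_inv_norm (𝕜 := ℝ) (norm_pos_iff.1 A0))
    (norm_smul_inv_norm (𝕜 := ℝ) (norm_pos_iff.1 B0))
  have k : ∀ w : X, ‖w‖ = 1 → ‖(2 * ‖x - y‖⁻¹) • w + (‖x + y‖⁻¹ - ‖x - y‖⁻¹) • (x + y)‖ ≤
      (2 + ‖x - y‖ - ‖x + y‖) / ‖x - y‖ := fun w hw => by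
    refine (norm_add_le _ _).trans (le_of_eq ?_)
    rw [norm_smul, norm_smul, hw, Real.norm_of_nonneg (by positivity),
      Real.norm_of_nonneg (sub_nonneg.2 (inv_anti₀ A0 hB))]
    field_simp
    ring
  have h3 : S ≤ (2 + ‖x - y‖ - ‖x + y‖) / ‖x - y‖ := by
    refine h.trans (max_le (le_of_eq_of_le (congrArg _ ?_) (k x hx))
      (le_of_eq_of_le (congrArg _ ?_) (k y hy))) <;> simp only [RCLike.ofReal_real_eq_id, id] <;>
      module
  rw [le_div_iff₀ B0] at h3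
  nlinarith

lemma est {a b c d δ : ℝ} (h : a * d - b * c = 1) (ha : a ≤ 1) (hd : d ≤ 1) (h1 : 1 - a ≤ δ)
    (hb : |b| ≤ δ) (hc : |c| ≤ 1) (hδ : δ ≤ 1 / 2) (r1 : a + c + (b + d) ≤ 2)
    (r2 : a - c - (b - d) ≤ 2) :
    |a ^ 2 + c ^ 2 - 1| ≤ 28 * δ ^ 2 ∧ |b ^ 2 + d ^ 2 - 1| ≤ 28 * δ ^ 2 ∧
      |a * b + c * d| ≤ 12 * δ ^ 2 := by
  have δ0 : 0 ≤ δ := (abs_nonneg _).trans hb
  have e1 : -(b * c) ≤ |b| * |c| := by rw [← abs_mul]; exact neg_le_abs _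
  have e2 : 1 - d ≤ 2 * δ := by
    nlinarith [mul_le_mul hb hc (abs_nonneg _) δ0]
  have b1 := abs_le.1 hb
  have c1 := abs_le.1 hc
  have e3 : |c| ≤ 4 * δ := abs_le.2 ⟨by linarith, by linarith⟩
  have e4 : 2 - a - d ≤ 6 * δ ^ 2 := by
    nlinarith [mul_le_mul hb e3 (abs_nonneg _) δ0,
      mul_le_mul h1 e2 (sub_nonneg.2 hd) δ0]
  have e5 : c ^ 2 ≤ (4 * δ) ^ 2 := sq_le_sq' (abs_le.1 e3).1 (abs_le.1 e3).2
  have e6 : b ^ 2 ≤ δ ^ 2 := sq_le_sq' b1.1 b1.2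
  refine ⟨abs_le.2 ⟨by nlinarith, by nlinarith⟩, abs_le.2 ⟨by nlinarith, by nlinarith⟩,
    abs_le.2 ⟨by nlinarith, by nlinarith⟩⟩

lemma plane {L : ℝ × ℝ →ₗ[ℝ] X} (l1 : ∀ w, |w.1| ≤ ‖L w‖) (l2 : ∀ w, |w.2| ≤ ‖L w‖)
    (e1 : ‖L (1, 0)‖ = 1) (e2 : ‖L (0, 1)‖ = 1) (R1 : ∀ a b, dt a b ≤ ‖L a‖ * ‖L b‖)
    (R2 : ∀ a, ‖L a‖ = 1 → ∃ b, ‖L b‖ = 1 ∧ dt a b = 1)
    (R3 : ∀ a b, ‖L a‖ = 1 → ‖L b‖ = 1 → dt a b = 1 → ‖L (a + b)‖ ≤ √2 ∧ ‖L (a - b)‖ ≤ √2)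
    (t : ℝ) : ‖L (t, 1)‖ ^ 2 = t ^ 2 + 1 := by
  have r2 := Real.mul_self_sqrt (show (0 : ℝ) ≤ 2 by norm_num)
  have R0 : ∀ a b, |dt a b| ≤ ‖L a‖ * ‖L b‖ := fun a b => abs_le.2 ⟨by
    have := R1 b a
    simp only [dt] at this ⊢
    linarith, R1 a b⟩
  have key : ∀ x y x' y' : ℝ × ℝ, ‖L x‖ = 1 → ‖L y‖ = 1 → dt x y = 1 → ‖L x'‖ = 1 → ‖L y'‖ = 1 →
      dt x' y' = 1 → ∀ δ, ‖L (x - x')‖ ≤ δ → δ ≤ 1 / 2 →
      |x'.1 ^ 2 + x'.2 ^ 2 + y'.1 ^ 2 + y'.2 ^ 2 - (x.1 ^ 2 + x.2 ^ 2 + y.1 ^ 2 + y.2 ^ 2)| ≤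
        160 * δ ^ 2 := by
    intro x y x' y' hx hy h hx' hy' h' δ hδ h2
    have s1 := (R1 (x' + y') (y - x)).trans (mul_le_mul (R3 _ _ hx' hy' h').1
      (show ‖L (y - x)‖ ≤ √2 by
        rw [← norm_neg, ← map_neg, neg_sub]; exact (R3 _ _ hx hy h).2) (norm_nonneg _)
      (Real.sqrt_nonneg _))
    have s2 := (R1 (x' - y') (x + y)).trans (mul_le_mul (R3 _ _ hx' hy' h').2
      (R3 _ _ hx hy h).1 (norm_nonneg _) (Real.sqrt_nonneg _))
    have s3 := R1 (x - x') y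
    have s4 := R0 x (x - x')
    have s5 := R1 x' y
    have s6 := R1 x y'
    have s7 := R0 y' y
    rw [hy] at s3 s5 s7
    rw [hx] at s4 s6
    rw [hx'] at s5
    rw [hy'] at s6 s7
    have x1 := (l1 x).trans hx.le
    have x2 := (l2 x).trans hx.le
    have y1 := (l1 y).trans hy.le
    have y2 := (l2 y).trans hy.le
    have s8 : dt x (x - x') = -dt x x' := by simp [dt]; ring
    rw [s8, abs_neg] at s4
    obtain ⟨t1, t2, t3⟩ := est (a := dt x' y) (b := dt x x') (c := dt y' y) (d := dt x y') (δ := δ)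
      (by simp only [dt] at h h' ⊢; linear_combination (x'.1 * y'.2 - x'.2 * y'.1) * h + h')
      (by linarith) (by linarith) (by simp only [dt, Prod.fst_sub, Prod.snd_sub] at s3 h ⊢; linarith)
      (by linarith) (by linarith) h2
      (by simp only [dt, Prod.fst_sub, Prod.snd_sub, Prod.fst_add, Prod.snd_add] at s1 ⊢; linarith)
      (by simp only [dt, Prod.fst_sub, Prod.snd_sub, Prod.fst_add, Prod.snd_add] at s2 ⊢; linarith)
    have c1 : x'.1 = dt x' y * x.1 + dt x x' * y.1 := by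
      simp only [dt] at h ⊢; linear_combination (-x'.1) * h
    have c2 : x'.2 = dt x' y * x.2 + dt x x' * y.2 := by
      simp only [dt] at h ⊢; linear_combination (-x'.2) * h
    have c3 : y'.1 = dt y' y * x.1 + dt x y' * y.1 := by
      simp only [dt] at h ⊢; linear_combination (-y'.1) * h
    have c4 : y'.2 = dt y' y * x.2 + dt x y' * y.2 := by
      simp only [dt] at h ⊢; linear_combination (-y'.2) * h
    generalize dt x' y = a at *
    generalize dt x x' = b at *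
    generalize dt y' y = c at *
    generalize dt x y' = d at *
    have m : ∀ p q : ℝ, |p| ≤ 1 → |q| ≤ 1 → |p * q| ≤ 1 := fun p q hp hq => by
      rw [abs_mul]; exact mul_le_one₀ hp (abs_nonneg _) hq
    have m2 : ∀ p q r s : ℝ, |p| ≤ 1 → |q| ≤ 1 → |r| ≤ 1 → |s| ≤ 1 → ∀ e E : ℝ, |e| ≤ E →
        |e * (p * q + r * s)| ≤ E * 2 := fun p q r s hp hq hr hs e E he => by
      rw [abs_mul]
      exact mul_le_mul he ((abs_add_le _ _).trans (by linarith [m p q hp hq, m r s hr hs]))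
        (abs_nonneg _) ((abs_nonneg _).trans he)
    have u1 := abs_le.1 (m2 _ _ _ _ x1 x1 x2 x2 _ _ t1)
    have u2 := abs_le.1 (m2 _ _ _ _ y1 y1 y2 y2 _ _ t2)
    have u3 := abs_le.1 (m2 _ _ _ _ x1 y1 x2 y2 _ _ t3)
    rw [c1, c2, c3, c4]
    exact abs_le.2 ⟨by linarith, by linarith⟩
  have g1 : ∀ s, 1 ≤ ‖L (s, 1)‖ := fun s => by simpa using l2 (s, 1)
  have g0 : ∀ s, 0 < ‖L (s, 1)‖ := fun s => one_pos.trans_le (g1 s)
  set x : ℝ → ℝ × ℝ := fun s => ‖L (s, 1)‖⁻¹ • (s, 1) with hx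
  have n1 : ∀ s, ‖L (x s)‖ = 1 := fun s => by simp [hx, norm_smul, (g0 s).ne', -Prod.smul_mk]
  choose Y y1 y2 using fun s => R2 _ (n1 s)
  have lip : ∀ s r, ‖L (x s - x r)‖ ≤ 2 * |r - s| := fun s r => by
    have a1 : ‖L (s, 1) - L (r, 1)‖ = |r - s| := by
      rw [← map_sub, show ((s, 1) : ℝ × ℝ) - (r, 1) = (s - r) • (1, 0) by simp, map_smul, norm_smul,
        e1, mul_one, Real.norm_eq_abs, abs_sub_comm]
    have a2 := (abs_norm_sub_norm_le (L (s, 1)) (L (r, 1))).trans a1.le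
    have a3 : L (x s - x r) = ‖L (s, 1)‖⁻¹ • ((L (s, 1) - L (r, 1)) +
        (‖L (r, 1)‖ - ‖L (s, 1)‖) • L (x r)) := by
      have := (g0 s).ne'
      have := (g0 r).ne'
      simp only [hx, map_sub, map_smul]
      match_scalars <;> field_simp <;> ring
    rw [a3, norm_smul, Real.norm_of_nonneg (inv_nonneg.2 (g0 s).le)]
    refine (mul_le_of_le_one_left (norm_nonneg _) (inv_le_one_of_one_le₀ (g1 s))).trans
      ((norm_add_le _ _).trans ?_)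
    rw [a1, norm_smul, n1, Real.norm_eq_abs, abs_sub_comm (‖L (r, 1)‖)]
    linarith
  set φ : ℝ → ℝ := fun s => (x s).1 ^ 2 + (x s).2 ^ 2 + (Y s).1 ^ 2 + (Y s).2 ^ 2 with hφ
  have der : ∀ s, HasDerivAt φ 0 s := fun s => by
    rw [hasDerivAt_iff_isLittleO]
    refine Asymptotics.IsBigO.trans_isLittleO (Asymptotics.IsBigO.of_bound 640 ?_)
      (Asymptotics.isLittleO_pow_sub_sub s one_lt_two)
    filter_upwards [Metric.closedBall_mem_nhds s (show (0 : ℝ) < 1 / 4 by norm_num)] with r hr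
    have h1 : |r - s| ≤ 1 / 4 := hr
    have := key _ _ _ _ (n1 s) (y1 s) (y2 s) (n1 r) (y1 r) (y2 r) _ (lip s r) (by linarith)
    simp only [smul_zero, sub_zero, Real.norm_eq_abs, abs_pow, abs_abs]
    exact this.trans (le_of_eq (by ring))
  have c1 : φ t = φ 0 :=
    is_const_of_deriv_eq_zero (fun s => (der s).differentiableAt) (fun s => (der s).deriv) t 0
  have c2 : φ 0 = 2 := by
    have := key (0, 1) (-1, 0) _ _ e2 (by
      rw [← norm_neg, ← map_neg]; simpa using e1) (by simp [dt])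
      (n1 0) (y1 0) (y2 0) 0 (by simp [hx, e2]) (by norm_num)
    have := abs_nonpos_iff.1 (this.trans (by simp))
    simp only [hφ]
    linarith
  have c3 := y2 t
  rw [c2] at c1
  simp only [hφ, dt] at c1 c3
  have c0 : ((x t).1 - (Y t).2) ^ 2 + ((x t).2 + (Y t).1) ^ 2 = 0 := by
    linear_combination c1 - 2 * c3
  have c4 : (x t).1 = (Y t).2 := by nlinarith [sq_nonneg ((x t).2 + (Y t).1)]
  have c5 : (x t).2 = -(Y t).1 := by nlinarith [sq_nonneg ((x t).1 - (Y t).2)]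
  have c6 : (x t).1 ^ 2 + (x t).2 ^ 2 = 1 := by rw [← c3, ← c4, c5]; ring
  have := (g0 t).ne'
  simp only [hx, Prod.smul_fst, Prod.smul_snd, smul_eq_mul] at c6
  field_simp at c6
  linarith

theorem ellipse (hs : ∀ x y : X, Or x y → Or y x) {S : ℝ} (hS : √2 ≤ S)
    (h1 : ∀ x y : X, ‖x‖ = 1 → ‖y‖ = 1 → Or x y → S ≤ ‖x + y‖)
    (h2 : ∀ x y : X, ‖x‖ = 1 → ‖y‖ = 1 → S ≤ max ‖x + y‖ ‖x - y‖) (p q : X) :
    ‖p + q‖ ^ 2 + ‖p - q‖ ^ 2 = 2 * (‖p‖ ^ 2 + ‖q‖ ^ 2) := by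
  have D : ∀ x y : X, ‖x‖ = 1 → ‖y‖ = 1 → Or x y → ‖x + y‖ ≤ √2 ∧ ‖x - y‖ ≤ √2 := by
    intro x y hx hy o
    rcases le_total ‖x + y‖ ‖x - y‖ with h | h
    · have := diag hS h2 hx hy (h1 x y hx hy o) h
      exact ⟨h.trans this, this⟩
    · have := diag hS h2 hx (y := -y) (by simpa using hy) (h1 x _ hx (by simpa using hy) o.neg)
        (by simpa [← sub_eq_add_neg] using h)
      rw [sub_neg_eq_add] at this
      exact ⟨this, h.trans this⟩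
  have E : ∀ u z : X, ‖u‖ = 1 → ‖z‖ = 1 → Or u z → ∀ a b : ℝ, ‖a • u + b • z‖ ^ 2 = a ^ 2 + b ^ 2 := by
    intro u z hu hz o a b
    obtain ⟨R1, R2⟩ := radon hs hu hz o
    rcases eq_or_ne b 0 with rfl | hb
    · simp [norm_smul, hu]
    have := plane (L := pl u z) (fun w => by simpa [hu] using o.le w.1 w.2)
      (fun w => by simpa [hz, add_comm] using (hs _ _ o).le w.2 w.1) (by simp [hu]) (by simp [hz])
      R1 R2 (fun a b ha hb h => by
        rw [map_add, map_sub]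
        refine D _ _ ha hb fun t => ?_
        have := R1 (a + t • b) b
        rw [hb, mul_one, map_add, map_smul] at this
        refine ha.trans_le (le_trans (le_of_eq ?_) this)
        simp only [dt, Prod.smul_fst, Prod.smul_snd, smul_eq_mul, Prod.fst_add, Prod.snd_add] at h ⊢
        linarith) (a / b)
    rw [show a • u + b • z = b • pl u z (a / b, 1) by
      rw [pl_apply]; match_scalars <;> field_simp, norm_smul, mul_pow, this, Real.norm_eq_abs,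
      sq_abs]
    field_simp
  rcases eq_or_ne p 0 with rfl | hp
  · simp; ring
  obtain ⟨u, c, hu, rfl⟩ : ∃ (u : X) (c : ℝ), ‖u‖ = 1 ∧ p = c • u :=
    ⟨_, ‖p‖, norm_smul_inv_norm (𝕜 := ℝ) hp, by simp [smul_smul, hp]⟩
  rcases split hu q with ⟨a, rfl⟩ | ⟨z, a, b, hz, o, -, rfl⟩
  · rw [← add_smul, ← sub_smul]
    simp only [norm_smul, hu, mul_one, Real.norm_eq_abs, sq_abs]
    ring
  · rw [show c • u + (a • u + b • z) = (c + a) • u + b • z by module,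
      show c • u - (a • u + b • z) = (c - a) • u + (-b) • z by module, E u z hu hz o, E u z hu hz o,
      E u z hu hz o, norm_smul, hu, mul_one, Real.norm_eq_abs, sq_abs]
    ring

end Pool.Agent.P.MP_4f9fa7_an.H
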