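import Mathlib

/-! Symmetric orthogonality: planes are Radon planes, and the Schaffer constant. -/

set_option autoImplicit false

open Filter Topology

namespace Pool.Agent.P.MP_4f9fa7_an.H

variable {X : Type} [NormedAddCommGroup X] [NormedSpace ℝ X]

/-- Birkhoff-James orthogonality -/
def Or (x y : X) : Prop := ∀ t : ℝ, ‖x‖ ≤ ‖x + t • y‖

/-- determinant in the plane -/
def dt (a b : ℝ × ℝ) : ℝ := a.1 * b.2 - a.2 * b.1

/-- coordinates of a plane -/
def pl (u z : X) : ℝ × ℝ →ₗ[ℝ] X :=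
  (LinearMap.fst ℝ ℝ ℝ).smulRight u + (LinearMap.snd ℝ ℝ ℝ).smulRight z

@[simp] lemma pl_apply (u z : X) (w : ℝ × ℝ) : pl u z w = w.1 • u + w.2 • z := rfl

lemma Or.le {x y : X} (h : Or x y) (a b : ℝ) : |a| * ‖x‖ ≤ ‖a • x + b • y‖ := by
  rcases eq_or_ne a 0 with rfl | ha
  · simp
  have : a • x + b • y = a • (x + (b / a) • y) := by
    rw [smul_add, smul_smul, mul_div_cancel₀ _ ha]
  rw [this, norm_smul, Real.norm_eq_abs]
  exact mul_le_mul_of_nonneg_left (h _) (abs_nonneg _)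

lemma Or.smul {x y : X} (h : Or x y) (a b : ℝ) : Or (a • x) (b • y) := fun t => by
  rw [smul_smul, norm_smul]; exact h.le _ _

lemma Or.neg {x y : X} (h : Or x y) : Or x (-y) := by simpa using h.smul 1 (-1)

lemma sym_of_unit (h : ∀ x y : X, ‖x‖ = 1 → ‖y‖ = 1 → Or x y → Or y x) (x y : X) (o : Or x y) :
    Or y x := by
  rcases eq_or_ne x 0 with rfl | hx
  · intro t; simp
  rcases eq_or_ne y 0 with rfl | hy
  · intro t; simp
  have := (h _ _ (norm_smul_inv_norm (𝕜 := ℝ) hx) (norm_smul_inv_norm (𝕜 := ℝ) hy)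
    (o.smul _ _)).smul ‖y‖ ‖x‖
  simpa [smul_smul, hx, hy] using this

lemma split {u : X} (hu : ‖u‖ = 1) (v : X) :
    (∃ a : ℝ, v = a • u) ∨ ∃ (z : X) (a b : ℝ), ‖z‖ = 1 ∧ Or u z ∧ 0 < b ∧ v = a • u + b • z := by
  obtain ⟨g, g1, g2⟩ := exists_dual_vector ℝ u (by simp [hu])
  rcases eq_or_ne (v - g v • u) 0 with h | h
  · exact .inl ⟨g v, sub_eq_zero.1 h⟩
  refine .inr ⟨_, g v, ‖v - g v • u‖, norm_smul_inv_norm (𝕜 := ℝ) h, fun t => ?_,
    norm_pos_iff.2 h, by simp [smul_smul, h]⟩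
  have h1 := (le_abs_self _).trans
    (g.le_opNorm (u + t • ((‖v - g v • u‖⁻¹ : ℝ) • (v - g v • u))))
  simpa [g1, g2, hu] using h1

lemma tele {f g : ℝ → ℝ} (hf : ∀ t, 0 < f t) (hg : ∀ t, 0 ≤ g t) (hc : Continuous g)
    (h : ∀ t, ∃ σ : ℝ, |σ| ≤ 1 ∧ ∀ s, f t * (1 + σ * s) ≤ f (t + s) ∧ g t * (1 + σ * s) ≤ g (t + s))
    (s t : ℝ) : g s / f s ≤ g t / f t := by
  have step : ∀ τ : ℝ, |τ| ≤ 1 → ∀ r, g (r + τ) / f r * (1 - τ ^ 2) ≤ g (r + τ + τ) / f (r + τ) := by
    intro τ hτ r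
    obtain ⟨σ, hσ, H⟩ := h (r + τ)
    have a1 := (H (-τ)).1
    have a2 := (H τ).2
    have a3 : |σ * τ| ≤ |τ| := by
      rw [abs_mul]; exact mul_le_of_le_one_left (abs_nonneg _) hσ
    have a4 := abs_le.1 (a3.trans hτ)
    have a5 : (σ * τ) ^ 2 ≤ τ ^ 2 := sq_le_sq.2 a3
    rw [add_neg_cancel_right] at a1
    have a6 := mul_le_mul a1 a2 (mul_nonneg (hg _) (by linarith)) (hf r).le
    rw [div_mul_eq_mul_div, div_le_div_iff₀ (hf _) (hf _)]
    nlinarith [mul_nonneg (hf (r + τ)).le (hg (r + τ))]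
  have iter : ∀ τ : ℝ, |τ| ≤ 1 → ∀ k : ℕ,
      g (s + τ) / f s * (1 - τ ^ 2) ^ k ≤ g (s + k * τ + τ) / f (s + k * τ) := by
    intro τ hτ k
    have h1 : 0 ≤ 1 - τ ^ 2 := sub_nonneg.2 (by rwa [sq_le_one_iff_abs_le_one])
    induction k with
    | zero => simp
    | succ k ih =>
      rw [pow_succ, ← mul_assoc, show s + (k + 1 : ℕ) * τ = s + k * τ + τ by push_cast; ring]
      exact (mul_le_mul_of_nonneg_right ih h1).trans (step τ hτ _)
  have hτ : Tendsto (fun n : ℕ => (t - s) / n) atTop (𝓝 0) := tendsto_const_div_atTop_nhds_zero_nat _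
  have l1 : Tendsto (fun n : ℕ => g (s + (t - s) / n) / f s * (1 - (t - s) * ((t - s) / n))) atTop
      (𝓝 (g (s + 0) / f s * (1 - (t - s) * 0))) :=
    (((hc.tendsto _).comp (hτ.const_add s)).div_const _).mul ((hτ.const_mul _).const_sub 1)
  have l2 : Tendsto (fun n : ℕ => g (t + (t - s) / n) / f t) atTop (𝓝 (g (t + 0) / f t)) :=
    ((hc.tendsto _).comp (hτ.const_add t)).div_const _
  have := le_of_tendsto_of_tendsto l1 l2 (by
    filter_upwards [hτ.eventually (Metric.closedBall_mem_nhds 0 one_pos), eventually_gt_atTop 0]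
      with n hn n0
    have hn' : |(t - s) / n| ≤ 1 := by simpa only [Real.dist_eq, sub_zero] using hn
    have n1 : (n : ℝ) ≠ 0 := by positivity
    have h1 := iter _ hn' n
    rw [mul_div_cancel₀ _ n1, add_sub_cancel] at h1
    refine le_trans (mul_le_mul_of_nonneg_left ?_ (div_nonneg (hg _) (hf _).le)) h1
    have h2 := one_add_mul_le_pow (a := -((t - s) / n) ^ 2)
      (by nlinarith [(sq_le_one_iff_abs_le_one _).2 hn']) n
    refine le_trans (le_of_eq ?_) h2
    field_simp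
    ring)
  simpa using this

theorem radon (hs : ∀ x y : X, Or x y → Or y x) {u z : X} (hu : ‖u‖ = 1) (hz : ‖z‖ = 1)
    (o : Or u z) : (∀ a b, dt a b ≤ ‖pl u z a‖ * ‖pl u z b‖) ∧
      ∀ a, ‖pl u z a‖ = 1 → ∃ b, ‖pl u z b‖ = 1 ∧ dt a b = 1 := by
  have l1 : ∀ w, |w.1| ≤ ‖pl u z w‖ := fun w => by simpa [hu] using o.le w.1 w.2
  have l2 : ∀ w, |w.2| ≤ ‖pl u z w‖ := fun w => by
    simpa [hz, add_comm] using (hs _ _ o).le w.2 w.1
  have e1 : ‖pl u z (-1, 0)‖ = 1 := by simp [hu]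
  have e2 : ∀ c : ℝ, ‖pl u z (0, c)‖ = |c| := fun c => by simp [hz, norm_smul]
  have e3 : ∀ c : ℝ, ‖pl u z (c, 0)‖ = |c| := fun c => by simp [hu, norm_smul]
  generalize pl u z = L at *
  have hL : Continuous L := L.continuous_of_finiteDimensional
  have hK : IsCompact {b | ‖L b‖ ≤ 1} :=
    (isCompact_closedBall (0 : ℝ × ℝ) 1).of_isClosed_subset (isClosed_le hL.norm continuous_const)
      fun b hb => by
        simpa [Prod.norm_def] using And.intro ((l1 b).trans hb) ((l2 b).trans hb)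
  choose Y hY hm using fun t : ℝ => hK.exists_isMaxOn (f := dt (t, 1)) ⟨0, by simp⟩
    (by unfold dt; fun_prop)
  set f : ℝ → ℝ := fun t => dt (t, 1) (Y t) with hf
  have f1 : ∀ t, 1 ≤ f t := fun t => by simpa [hf, dt] using hm t (a := (-1, 0)) e1.le
  have k1 : ∀ t b, dt (t, 1) b ≤ f t * ‖L b‖ := fun t b => by
    rcases (norm_nonneg (L b)).eq_or_lt with h | h
    · have a1 := abs_nonpos_iff.1 (h ▸ l1 b)
      have a2 := abs_nonpos_iff.1 (h ▸ l2 b)
      simp [dt, a1, a2, ← h]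
    · have := hm t (a := ‖L b‖⁻¹ • b) (by simp [norm_smul, h.ne'])
      rw [← div_le_iff₀ h]
      refine le_trans (le_of_eq ?_) this
      simp only [dt, Prod.smul_fst, Prod.smul_snd, smul_eq_mul]
      ring
  have y1 : ∀ t, ‖L (Y t)‖ = 1 := fun t =>
    le_antisymm (hY t) (by nlinarith [k1 t (Y t), f1 t])
  have o1 : ∀ t, Or (L (t, 1)) (L (Y t)) := fun t => hs _ _ fun s => by
    have h1 := k1 t (Y t + s • (t, 1))
    have h2 : dt (t, 1) (Y t + s • (t, 1)) = f t := by simp [hf, dt]; ring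
    rw [h2, map_add, map_smul] at h1
    rw [y1]
    nlinarith [f1 t]
  have T := tele (f := f) (g := fun t => ‖L (t, 1)‖) (fun t => one_pos.trans_le (f1 t))
    (fun t => norm_nonneg _) (by fun_prop) fun t => by
      have p := one_pos.trans_le (f1 t)
      refine ⟨(Y t).2 / f t, ?_, fun s => ⟨?_, ?_⟩⟩
      · rw [abs_div, abs_of_pos p, div_le_one p]
        exact (l2 _).trans ((y1 t).trans_le (f1 t))
      · refine le_trans (le_of_eq ?_) (hm (t + s) (hY t))
        field_simp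
        simp [hf, dt]; ring
      · have h1 := (o1 t).le (1 + (Y t).2 / f t * s) (-s / f t)
        rw [← map_smul, ← map_smul, ← map_add] at h1
        have h2 : (1 + (Y t).2 / f t * s) • ((t, 1) : ℝ × ℝ) + (-s / f t) • Y t = (t + s, 1) := by
          ext
          · simp only [Prod.fst_add, Prod.smul_fst, smul_eq_mul]
            field_simp
            simp [hf, dt]; ring
          · simp only [Prod.snd_add, Prod.smul_snd, smul_eq_mul]
            ring
        rw [h2] at h1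
        rw [mul_comm]
        exact (mul_le_mul_of_nonneg_right (le_abs_self _) (norm_nonneg _)).trans h1
  have f0 : f 0 = 1 := le_antisymm (by
    have := (neg_le_abs _).trans ((l1 (Y 0)).trans (hY 0))
    simpa [hf, dt] using this) (f1 0)
  have fg : ∀ t, f t = ‖L (t, 1)‖ := fun t => by
    have := le_antisymm (T t 0) (T 0 t)
    simp only [f0, e2, abs_one, div_one] at this
    exact ((div_eq_one_iff_eq (one_pos.trans_le (f1 t)).ne').1 this).symm
  have sc : ∀ a : ℝ × ℝ, a.2 ≠ 0 → ‖L a‖ = |a.2| * f (a.1 / a.2) ∧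
      ∀ b, dt a b = a.2 * dt (a.1 / a.2, 1) b := fun a ha => by
    refine ⟨?_, fun b => by simp only [dt]; field_simp⟩
    rw [fg, ← Real.norm_eq_abs, ← norm_smul, ← map_smul]
    congr 2
    ext <;> simp [mul_div_cancel₀ _ ha]
  refine ⟨fun a b => ?_, fun a ha => ?_⟩
  · rcases eq_or_ne a.2 0 with h | h
    · refine le_trans ?_ (mul_le_mul (l1 a) (l2 b) (abs_nonneg _) (norm_nonneg _))
      simpa [dt, h, ← abs_mul] using le_abs_self _
    · rw [(sc a h).1, (sc a h).2, mul_assoc]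
      refine (le_abs_self _).trans ?_
      rw [abs_mul]
      refine mul_le_mul_of_nonneg_left (abs_le.2 ⟨?_, k1 _ _⟩) (abs_nonneg _)
      have := k1 (a.1 / a.2) (-b)
      simp only [dt, map_neg, norm_neg, Prod.fst_neg, Prod.snd_neg] at this ⊢
      linarith
  · rcases eq_or_ne a.2 0 with h | h
    · have h1 : |a.1| = 1 := by rw [← e3, ← h]; exact ha
      refine ⟨(0, a.1), by rw [e2, h1], ?_⟩
      simp only [dt, h, ← sq]
      rw [← sq_abs, h1]; simp
    · refine ⟨(|a.2| / a.2) • Y (a.1 / a.2), ?_, ?_⟩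
      · simp [norm_smul, y1, h]
      · rw [← ha, (sc a h).1, (sc a h).2]
        simp only [hf, dt, Prod.smul_fst, Prod.smul_snd, smul_eq_mul]
        field_simp

lemma mono1 {a b c : X} (hb : ‖b‖ = 1) (hc : ‖c‖ = 1) (ha : ‖a‖ = 1) {s t : ℝ} (hs : 0 ≤ s)
    (ht : 0 ≤ t) (e : b = s • a + t • c) :
    (1 + s) * ‖a + c‖ ≤ ‖a + b‖ + (1 + s - t) ∧ ‖a + c‖ ≤ ‖a + b‖ ∧
      1 + s + t ≤ t * ‖b + c‖ + s * ‖a + b‖ := by
  have n : ∀ (r : ℝ) (x : X), 0 ≤ r → ‖r • x‖ = r * ‖x‖ := fun r x h => by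
    rw [norm_smul, Real.norm_of_nonneg h]
  have h0 : t ≤ 1 + s := by
    have := norm_sub_le b (s • a)
    rwa [n _ _ hs, hb, ha, show b - s • a = t • c by rw [e]; abel, n _ _ ht, hc, mul_one,
      mul_one] at this
  have h1 := norm_add_le (a + b) ((1 + s - t) • c)
  rw [show a + b + (1 + s - t) • c = (1 + s) • (a + c) by rw [e]; module, n _ _ (by linarith),
    n _ _ (by linarith), hc, mul_one] at h1
  have h2 := norm_add_le (t • c) (s • (a + b))
  rw [show t • c + s • (a + b) = (1 + s) • b by rw [e]; module, n _ _ (by linarith), n _ _ ht,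
    n _ _ hs, hb, hc, mul_one, mul_one] at h2
  have h3 := norm_add_le (t • (b + c)) (s • (a + b))
  rw [show t • (b + c) + s • (a + b) = (1 + s + t) • b by rw [e]; module, n _ _ (by linarith),
    n _ _ ht, n _ _ hs, hb, mul_one] at h3
  exact ⟨h1, le_of_mul_le_mul_left (by linarith) (show 0 < 1 + s by linarith), h3⟩

lemma near (hs : ∀ x y : X, Or x y → Or y x) {S η : ℝ}
    (h1 : ∀ x y : X, ‖x‖ = 1 → ‖y‖ = 1 → Or x y → S ≤ ‖x + y‖) {u z : X} (hu : ‖u‖ = 1)
    (hz : ‖z‖ = 1) (o : Or u z) {α β : ℝ} (hα : 0 ≤ α) (hβ : 0 < β) (hv : ‖α • u + β • z‖ = 1)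
    (hη : 0 < η) (h2 : S + η ≤ 3 / 2) (h2' : η ≤ 1 / 10) (m1 : ‖u + (α • u + β • z)‖ ≤ S + η) :
    1 - β ≤ 14 * η := by
  obtain ⟨R1, R2⟩ := radon hs hu hz o
  have l1 : ∀ a b : ℝ, |a| ≤ ‖a • u + b • z‖ := fun a b => by simpa [hu] using o.le a b
  have l2 : ∀ a b : ℝ, |b| ≤ ‖a • u + b • z‖ := fun a b => by
    simpa [hz, add_comm] using (hs _ _ o).le b a
  set v := α • u + β • z with ev
  have a1 : 1 + α ≤ ‖u + v‖ := by
    have := (le_abs_self _).trans (l1 (1 + α) β)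
    rwa [show (1 + α) • u + β • z = u + v by rw [ev]; module] at this
  have a2 : 1 ≤ α + β := by
    have := norm_add_le (α • u) (β • z)
    rwa [← ev, hv, norm_smul, norm_smul, hu, hz, mul_one, mul_one, Real.norm_of_nonneg hα,
      Real.norm_of_nonneg hβ.le] at this
  have a3 : β ≤ 1 := (le_abs_self _).trans ((l2 α β).trans hv.le)
  obtain ⟨b1, b2, b3⟩ := mono1 hv hz hu hα hβ.le ev
  have b4 := h1 u z hu hz o
  have hN : 2 - 4 * η ≤ ‖v + z‖ := by
    refine le_of_mul_le_mul_left ?_ hβ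
    nlinarith [mul_le_mul_of_nonneg_left b4 (show 0 ≤ 1 + α by linarith),
      mul_le_mul_of_nonneg_left m1 (show 0 ≤ 1 + α by linarith)]
  set N := ‖v + z‖ with eN
  have N0 : 0 < N := by linarith
  have N2 : N ≤ 2 := (norm_add_le _ _).trans (by rw [hv, hz]; norm_num)
  have ey : pl u z (N⁻¹ • (α, β + 1)) = N⁻¹ • (v + z) := by
    rw [map_smul, pl_apply, ev]; module
  have hy : ‖pl u z (N⁻¹ • (α, β + 1))‖ = 1 := by
    rw [ey, norm_smul, ← eN, Real.norm_of_nonneg (by positivity), inv_mul_cancel₀ N0.ne']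
  obtain ⟨⟨p, ξ⟩, hb, db⟩ := R2 _ hy
  have hx : ‖pl u z (-p, -ξ)‖ = 1 := by rw [← hb, ← norm_neg, ← map_neg]; simp
  have d1 : α * ξ - (β + 1) * p = N := by
    simp only [dt, Prod.smul_fst, Prod.smul_snd, smul_eq_mul] at db
    field_simp at db
    linarith
  have c1 := h1 _ _ hx hy fun t => by
    have := R1 ((-p, -ξ) + t • N⁻¹ • (α, β + 1)) (N⁻¹ • (α, β + 1))
    rw [hy, mul_one, map_add, map_smul] at this
    refine hx.trans_le (le_trans (le_of_eq ?_) this)
    simp only [dt, Prod.smul_fst, Prod.smul_snd, smul_eq_mul, Prod.fst_add, Prod.snd_add]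
    field_simp
    linear_combination (-N) * d1
  have c2 : α * ξ - β * p ≤ 1 := by
    have := R1 (-p, -ξ) (α, β)
    rw [hx, show pl u z (α, β) = v from rfl, hv] at this
    simp only [dt] at this
    linarith
  have c3 := abs_le.1 ((l1 (-p) (-ξ)).trans hx.le)
  have c4 := abs_le.1 ((l2 (-p) (-ξ)).trans hx.le)
  by_contra hc
  have c5 : 1 - 4 * η - β ≤ α * ξ := by nlinarith
  have ξ0 : 0 < ξ := by
    by_contra h
    nlinarith
  have Δ0 : 0 < α * ξ - β * p := by linarith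
  set x := pl u z (-p, -ξ) with ex
  have c6 := (mono1 hu hx hv (div_nonneg ξ0.le Δ0.le) (div_nonneg hβ.le Δ0.le) (by
    rw [ex, pl_apply, ev]
    match_scalars
    · rw [div_mul_eq_mul_div, div_mul_eq_mul_div, ← add_div, eq_div_iff Δ0.ne']; ring
    · ring)).2.1
  have c7 := norm_add_le ((1 - ξ) • (u + z)) ((-p - 1 + ξ) • u)
  rw [show (1 - ξ) • (u + z) + (-p - 1 + ξ) • u = x + z by rw [ex, pl_apply]; module, norm_smul,
    norm_smul, hu, mul_one, Real.norm_of_nonneg (by linarith), Real.norm_eq_abs] at c7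
  have c8 : |-p - 1 + ξ| ≤ 4 * η + ξ := abs_le.2 ⟨by linarith, by linarith⟩
  have c9 := norm_add₃_le (a := v + x) (b := x + z) (c := (2 - N) • N⁻¹ • (v + z))
  rw [show v + x + (x + z) + (2 - N) • N⁻¹ • (v + z) = (2 : ℝ) • (x + N⁻¹ • (v + z)) by
    match_scalars <;> field_simp <;> ring, ← ey, norm_smul, norm_smul, hy,
    Real.norm_of_nonneg zero_le_two, Real.norm_of_nonneg (by linarith)] at c9
  rw [add_comm v u] at c6
  nlinarith [mul_le_mul_of_nonneg_left b2 (show 0 ≤ 1 - ξ by linarith),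
    mul_le_mul_of_nonneg_left a1 ξ0.le]

theorem sqrt_two_le (hs : ∀ x y : X, Or x y → Or y x) (S : ℝ)
    (h1 : ∀ x y : X, ‖x‖ = 1 → ‖y‖ = 1 → Or x y → S ≤ ‖x + y‖)
    (h3 : ∀ η > 0, ∃ u v : X, ‖u‖ = 1 ∧ ‖v‖ = 1 ∧ ‖u + v‖ ≤ S + η ∧ ‖u - v‖ ≤ S + η) :
    √2 ≤ S := by
  by_contra hc
  have r1 : √2 < 1.42 := by rw [Real.sqrt_lt' (by norm_num)]; norm_num
  have r2 := Real.sq_sqrt (show (0 : ℝ) ≤ 2 by norm_num)
  have key : ∀ η > 0, η ≤ 1 / 20 → 2 - 28 * η ≤ (S + η) ^ 2 ∧ 0 ≤ S + η := fun η hη h => by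
    obtain ⟨u, v, hu, hv, m1, m2⟩ := h3 η hη
    refine ⟨?_, (norm_nonneg _).trans m1⟩
    have h2 : S + η ≤ 3 / 2 := by linarith [not_le.1 hc]
    rcases split hu v with ⟨a, rfl⟩ | ⟨z, α, β, hz, o, hβ, rfl⟩
    · rw [norm_smul, hu, mul_one, Real.norm_eq_abs] at hv
      rw [show u + a • u = (1 + a) • u by module, norm_smul, hu, Real.norm_eq_abs] at m1
      rw [show u - a • u = (1 - a) • u by module, norm_smul, hu, Real.norm_eq_abs] at m2
      rcases eq_or_eq_neg_of_abs_eq hv with rfl | rfl <;> norm_num at m1 m2 <;> linarith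
    have b1 : 1 - β ≤ 14 * η := by
      rcases le_total 0 α with h0 | h0
      · exact near hs h1 hu hz o h0 hβ hv hη h2 (by linarith) m1
      · have e : (-α) • u + β • (-z) = -(α • u + β • z) := by module
        exact near hs h1 hu (by simpa using hz) o.neg (neg_nonneg.2 h0) hβ (by rwa [e, norm_neg])
          hη h2 (by linarith) (by rwa [e, ← sub_eq_add_neg])
    have b2 := (radon hs hu hz o).1 (1 - α, -β) (1 + α, β)
    rw [show pl u z (1 - α, -β) = u - (α • u + β • z) by rw [pl_apply]; module,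
      show pl u z (1 + α, β) = u + (α • u + β • z) by rw [pl_apply]; module] at b2
    have b3 := mul_le_mul m2 m1 (norm_nonneg _) ((norm_nonneg _).trans m1)
    simp only [dt] at b2
    nlinarith
  have hS : S < √2 := not_le.1 hc
  have s0 : 1 / 2 ≤ S := by
    obtain ⟨k1, k2⟩ := key (1 / 20) (by norm_num) le_rfl
    nlinarith
  have p : 0 < 2 - S ^ 2 := by nlinarith
  have := (key (min (1 / 20) ((2 - S ^ 2) / 40)) (by positivity) (min_le_left _ _)).1
  have q1 := min_le_left (1 / 20 : ℝ) ((2 - S ^ 2) / 40)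
  have q2 := min_le_right (1 / 20 : ℝ) ((2 - S ^ 2) / 40)
  have q3 : 0 < min (1 / 20 : ℝ) ((2 - S ^ 2) / 40) := by positivity
  nlinarith

end Pool.Agent.P.MP_4f9fa7_an.H
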