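import Pool.Agent.P.MP_4f9fa7_an.Proofs
import Pool.Agent.P.MP_4f9fa7_an.H.Radon

/-! The moduli of spaces with and without an inner product. -/

set_option autoImplicit false

namespace Pool.Agent.P.MP_4f9fa7_an.H

variable {X : Type} [NormedAddCommGroup X] [NormedSpace ℝ X]

lemma Or.quasi {x y : X} (h : Or x y) (hx : ‖x‖ = 1) : QuasiOrth X x y := by
  have a1 : 1 ≤ ‖(Submodule.Quotient.mk x : X ⧸ (ℝ ∙ y))‖ := le_of_forall_pos_le_add fun e he => by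
    obtain ⟨m, h1, h2⟩ := Submodule.Quotient.norm_mk_lt (Submodule.Quotient.mk x : X ⧸ (ℝ ∙ y)) he
    obtain ⟨t, ht⟩ := Submodule.mem_span_singleton.1 ((Submodule.Quotient.eq _).1 h1)
    have := h t
    rw [ht, add_sub_cancel, hx] at this
    linarith
  obtain ⟨g, h1, h2⟩ := exists_dual_vector'' ℝ (Submodule.Quotient.mk x : X ⧸ (ℝ ∙ y))
  refine quasiOrth_of X x y hx (g.comp (ℝ ∙ y).mkQL) (fun v => ?_) ?_ ?_
  · have := g.le_of_opNorm_le h1 (Submodule.Quotient.mk v)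
    rw [one_mul] at this
    exact this.trans (Submodule.Quotient.norm_mk_le _ _)
  · exact h2.trans (le_antisymm ((Submodule.Quotient.norm_mk_le _ _).trans hx.le) a1)
  · change g (Submodule.Quotient.mk y) = 0
    rw [(Submodule.Quotient.mk_eq_zero _).2 (Submodule.mem_span_singleton_self y), map_zero]

lemma or_of_quasi {x y : X} (hx : ‖x‖ = 1) (h : QuasiOrth X x y) : Or x y := fun t => by
  obtain ⟨p, h1, h2, h3⟩ := h
  simpa [h1, h2, h3, hx] using p.le_opNorm (x + t • y)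

lemma exists_or (hX : 2 ≤ Module.rank ℝ X) : ∃ x y : X, ‖x‖ = 1 ∧ ‖y‖ = 1 ∧ Or x y := by
  have : Nontrivial X := rank_pos_iff_nontrivial.1 (lt_of_lt_of_le two_pos hX)
  obtain ⟨x, hx⟩ := exists_norm_eq X zero_le_one
  by_contra hn
  have h1 : Module.rank ℝ X ≤ 1 := rank_le_one_iff.2 ⟨x, fun v => by
    rcases split hx v with ⟨a, e⟩ | ⟨z, -, -, hz, o, -⟩
    exacts [⟨a, e.symm⟩, absurd ⟨x, z, hx, hz, o⟩ hn]⟩
  exact absurd (hX.trans h1) (by norm_num)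

lemma betaMinus_le (ε : ℝ) {x y : X} (hx : ‖x‖ = 1) (hy : ‖y‖ = 1) :
    betaMinus X ε ≤ max ‖x + ε • y‖ ‖x - ε • y‖ - 1 := by
  refine csInf_le ⟨-1, ?_⟩ ⟨x, y, hx, hy, rfl⟩
  rintro t ⟨x, y, -, -, rfl⟩
  linarith [le_max_left ‖x + ε • y‖ ‖x - ε • y‖, norm_nonneg (x + ε • y)]

lemma le_betaPlus (ε : ℝ) {x y : X} (hx : ‖x‖ = 1) (hy : ‖y‖ = 1) :
    min ‖x + ε • y‖ ‖x - ε • y‖ - 1 ≤ betaPlus X ε := by
  refine le_csSup ⟨‖ε‖, ?_⟩ ⟨x, y, hx, hy, rfl⟩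
  rintro t ⟨x, y, hx, hy, rfl⟩
  have := norm_add_le x (ε • y)
  rw [norm_smul, hx, hy] at this
  linarith [min_le_left ‖x + ε • y‖ ‖x - ε • y‖]

lemma sym_of_large (h : ∀ M : ℝ, ∃ ε, M < ε ∧ zetaMinus X ε - 1 = betaMinus X ε) :
    ∀ x y : X, Or x y → Or y x := by
  have key : ∀ x y : X, ‖x‖ = 1 → ‖y‖ = 1 → Or x y → ∀ t : ℝ, 0 < t → 1 ≤ ‖y + t • x‖ := by
    intro x y hx hy o t ht
    obtain ⟨ε, h1, h2⟩ := h t⁻¹
    have e0 : 0 < ε := (inv_pos.2 ht).trans h1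
    have e1 : 1 < ε * t := (inv_lt_iff_one_lt_mul₀ ht).1 h1
    have a1 := zetaMinus_le X ε x y hx hy (o.quasi hx)
    have a2 := le_betaMinus X ε (ε - 1) x hx fun z w hz hw => by
      have := norm_sub_le (z + ε • w) (z - ε • w)
      rw [show z + ε • w - (z - ε • w) = (2 * ε) • w by module, norm_smul, hw,
        Real.norm_of_nonneg (by linarith)] at this
      linarith [le_max_left ‖z + ε • w‖ ‖z - ε • w‖, le_max_right ‖z + ε • w‖ ‖z - ε • w‖]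
    have a3 := norm_add_le ((ε * t - 1) • y) (y + t • x)
    rw [show (ε * t - 1) • y + (y + t • x) = t • (x + ε • y) by module, norm_smul, norm_smul, hy,
      Real.norm_of_nonneg ht.le, Real.norm_of_nonneg (by linarith)] at a3
    nlinarith
  refine sym_of_unit fun x y hx hy o t => ?_
  rw [hy]
  rcases lt_trichotomy t 0 with ht | rfl | ht
  · simpa using key (-x) y (by simpa using hx) hy (by simpa using o.smul (-1) 1) (-t) (by linarith)
  · simp [hy]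
  · exact key x y hx hy o t ht

/-- the data for the rigidity theorem -/
lemma data (hX : 2 ≤ Module.rank ℝ X) (h : zetaMinus X 1 - 1 = betaMinus X 1) :
    (∀ x y : X, ‖x‖ = 1 → ‖y‖ = 1 → Or x y → zetaMinus X 1 ≤ ‖x + y‖) ∧
    (∀ x y : X, ‖x‖ = 1 → ‖y‖ = 1 → zetaMinus X 1 ≤ max ‖x + y‖ ‖x - y‖) ∧
    ∀ η > 0, ∃ u v : X, ‖u‖ = 1 ∧ ‖v‖ = 1 ∧ ‖u + v‖ ≤ zetaMinus X 1 + η ∧
      ‖u - v‖ ≤ zetaMinus X 1 + η := by
  refine ⟨fun x y hx hy o => by simpa using zetaMinus_le X 1 x y hx hy (o.quasi hx),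
    fun x y hx hy => ?_, fun η hη => ?_⟩
  · have := betaMinus_le 1 hx hy
    rw [one_smul] at this
    linarith
  · obtain ⟨x, -, hx, -⟩ := exists_or hX
    by_contra hn
    have := le_betaMinus X 1 (betaMinus X 1 + η) x hx fun u v hu hv => by
      by_contra hc
      rw [one_smul] at hc
      exact hn ⟨u, v, hu, hv, by linarith [le_max_left ‖u + v‖ ‖u - v‖],
        by linarith [le_max_right ‖u + v‖ ‖u - v‖]⟩
    linarith

lemma form_of_par (h : ∀ x y : X, ‖x + y‖ ^ 2 + ‖x - y‖ ^ 2 = 2 * (‖x‖ ^ 2 + ‖y‖ ^ 2)) :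
    ∃ B : X →ₗ[ℝ] X →ₗ[ℝ] ℝ, (∀ x y, B x y = B y x) ∧ ∀ x, B x x = ‖x‖ ^ 2 := by
  let _ := InnerProductSpace.ofNorm ℝ (E := X) fun x y => by simpa only [sq] using h x y
  exact ⟨innerₗ X, fun x y => real_inner_comm y x, fun x => real_inner_self_eq_norm_sq x⟩

lemma moduli_of_form (hX : 2 ≤ Module.rank ℝ X) {B : X →ₗ[ℝ] X →ₗ[ℝ] ℝ}
    (h1 : ∀ x y, B x y = B y x) (h2 : ∀ x, B x x = ‖x‖ ^ 2) (ε : ℝ) :
    zetaMinus X ε - 1 = betaMinus X ε ∧ zetaPlus X ε - 1 = betaPlus X ε := by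
  have sq : ∀ (x y : X) (t : ℝ), ‖x‖ = 1 → ‖y‖ = 1 → ‖x + t • y‖ ^ 2 = 1 + t ^ 2 + 2 * t * B x y :=
    fun x y t hx hy => by
      rw [← h2]
      simp only [map_add, map_smul, LinearMap.add_apply, LinearMap.smul_apply, smul_eq_mul, h2,
        hx, hy, h1 y x]
      ring
  have sq' : ∀ (x y : X) (t : ℝ), ‖x‖ = 1 → ‖y‖ = 1 →
      ‖x - t • y‖ ^ 2 = 1 + t ^ 2 - 2 * t * B x y := fun x y t hx hy => by
    rw [sub_eq_add_neg, ← neg_smul, sq x y _ hx hy]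
    ring
  have val : ∀ (x y : X) (t : ℝ), ‖x‖ = 1 → ‖y‖ = 1 → Or x y → ‖x + t • y‖ = √(1 + t ^ 2) :=
    fun x y t hx hy o => by
      have a1 := pow_le_pow_left₀ (norm_nonneg _) (o (-B x y)) 2
      rw [sq x y _ hx hy, hx] at a1
      have a2 : B x y = 0 := by nlinarith
      rw [← Real.sqrt_sq (norm_nonneg (x + t • y)), sq x y t hx hy, a2, mul_zero, add_zero]
  obtain ⟨x, y, hx, hy, o⟩ := exists_or hX
  have e : {t : ℝ | ∃ x y : X, ‖x‖ = 1 ∧ ‖y‖ = 1 ∧ QuasiOrth X x y ∧ t = ‖x + ε • y‖} =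
      {√(1 + ε ^ 2)} := Set.eq_singleton_iff_unique_mem.2
    ⟨⟨x, y, hx, hy, o.quasi hx, (val x y ε hx hy o).symm⟩, by
      rintro t ⟨x, y, hx, hy, q, rfl⟩
      exact val x y ε hx hy (or_of_quasi hx q)⟩
  have e1 := val x y ε hx hy o
  have e2 : ‖x - ε • y‖ = √(1 + ε ^ 2) := by
    rw [sub_eq_add_neg, ← neg_smul, val x y _ hx hy o, neg_sq]
  rw [zetaMinus, zetaPlus, e, csInf_singleton, csSup_singleton]
  refine ⟨le_antisymm (le_betaMinus X ε _ x hx fun z w hz hw => sub_le_sub_right ?_ 1) ?_,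
    le_antisymm ?_ (betaPlus_le X ε _ x hx fun z w hz hw => sub_le_sub_right ?_ 1)⟩
  · rcases le_total 0 (ε * B z w) with h | h
    · exact le_max_of_le_left (Real.sqrt_le_iff.2 ⟨norm_nonneg _, by linarith [sq z w ε hz hw]⟩)
    · exact le_max_of_le_right (Real.sqrt_le_iff.2 ⟨norm_nonneg _, by linarith [sq' z w ε hz hw]⟩)
  · simpa [e1, e2] using betaMinus_le ε hx hy
  · simpa [e1, e2] using le_betaPlus ε hx hy
  · rcases le_total 0 (ε * B z w) with h | h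
    · exact min_le_of_right_le (Real.le_sqrt_of_sq_le (by linarith [sq' z w ε hz hw]))
    · exact min_le_of_left_le (Real.le_sqrt_of_sq_le (by linarith [sq z w ε hz hw]))

end Pool.Agent.P.MP_4f9fa7_an.H
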